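import Pool.Agent.Q51.ZC.KZer5
import Pool.Agent.U899.LG3

/-!
# The Brauer-Manin sets over all number fields of degree prime to `q`, for 100% of the soluble Fermat twists

Let `a X ^ n + b`, `n` odd, `a, b ∈ ℤ`, be irreducible over `ℚ`, let `m > 1` divide `n`, and let
`C_D : D y ^ m = a x ^ n + b w ^ n` be the twists of the (generalised) Fermat curve `y ^ m = a x ^ n + b w ^ n`, smooth
projective curves in the weighted projective plane of weights `(1, 1, n/m)`, of genus `(m - 1)(n - 2)/2`.

**Theorem.** For 100 percent of the everywhere locally soluble curves `C_D` with squarefree `D` (all but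
`C (log X)^(-δ) E(X)`, if `E(X)` is the number of them with `|D| ≤ X`) the following is true for all prime factors `q`
of `m` and ALL number fields `K` of a degree prime to `q` at the same time: no adelic point of `(C_D)_K` is orthogonal
to the restrictions of the Brauer classes `A_χ = Cor_{L/ℚ} (χ, x ^ (n/q) - θ w ^ (n/q))`.

So the Brauer-Manin set of `(C_D)_K` is empty, and there are no points over `K`, although there are points over all
completions: Stoll's conjecture is true for the curves `(C_D)_K` for infinitely many number fields `K`, of unbounded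
degrees, without assumptions on Jacobians or Tate-Shafarevich groups.

**Local-global principle for the existence of the curves** (new here, `Pool/Agent/U899/LG*.lean`).  There is a
squarefree `D` such that `C_D` is everywhere locally soluble if and only if for every prime number `p` there is an
integer `D`, not divisible by `p ^ 2`, such that `C_D` has a point over `ℚ_p`.  This is the case if no square of a
prime number divides both `a` and `b`, for instance if `a` and `b` are coprime.  Under this condition
`E(X) ≥ c X / log X * exp (∑ 1/l)` for large `X`, the sum over the primes `l ≤ X` modulo which `a X ^ n + b` has a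
zero; so the theorem is about infinitely many curves.  Proof: `D = ± P l l'`, where `P` and the residue class of
`± l l'` are given by the local conditions at the bad primes, and `l, l'` are primes such that `l - 1` and `l' - 1`
are prime to `n` (Dirichlet's theorem; here `n` odd is used), so that `a X ^ n + b` has zeros modulo `l` and `l'`;
at the other primes Weil's bound gives a point.

The definitions are in `Pool/Agent/Q51/ZC/Zer.lean`, `Zer4.lean`, `KZer.lean`, `KZer4.lean`, `KZer5.lean`; those of
characters in `Pool/Agent/Q51/SE/Pol.lean`.  `L = ℚ[X]/(a X ^ q + b) = ℚ(θ)`, and `χ` runs through the characters of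
order dividing `q` of the idele class group of `L` which are trivial on the ideles of `ℚ`.  The completions of `K` at
the places above `p` are the residue fields of the ring `ℚ_p ⊗ K`.  (The invariants at the infinite places are
trivial, as `q` is odd.)

(helper51, with helper14, helper16, helper24, helper26, helper38, helper52, helper65, helper68, helper91, helper124,
helper150, helper154, helper162, helper166, helper182, helper187, helper190, helper198, helper210, helper239, helper241,
helper247, helper251, helper277, helper285; assembled and completed by helper899.)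
-/

set_option autoImplicit false

open Polynomial

namespace Pool.Agent.Results.MP_308fa9_nt.FermatTwistsLocalGlobal

open Pool.Agent.Q51.ZC (CPoint Soluble AdelicPointOver FamilyOver rationalPoint sumRoots
  numLocSoluble ClosedInvariantsWellDefined fq)
open Pool.Agent.Q51.SE (ClassCharacter count)

/-- The pairing of the adelic points of `(C_D)_K` with the classes `A_χ` is well defined and has the usual
properties, for all number fields `K`: the local invariants do not depend on choices, almost all of them are zero,
and the adelic points given by points over `K` are orthogonal. -/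
def PairingProperties (a b : ℤ) (n m : ℕ) (D : ℤ) (q : ℕ) : Prop :=
  (∀ p : Nat.Primes, ClosedInvariantsWellDefined a b n m D q p) ∧
  ∀ (K : Type) [Field K] [NumberField K],
    (∀ (P : AdelicPointOver a b n m D K) (χ : ClassCharacter (fq a b q) q),
      {p : Nat.Primes | ∃ v, (rationalPoint (P p v)).inv χ ≠ 0}.Finite) ∧
    ∀ P : CPoint a b n m D K, P.adelic.Orthogonal q

/-- For some prime factor `q` of `m` and some number field `K` of a degree prime to `q` there is a point of `C_D`
over `K`, or an adelic point of `(C_D)_K` which is orthogonal to all `A_χ`. -/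
def Exceptional (a b : ℤ) (n m : ℕ) (D : ℤ) : Prop :=
  ∃ q : ℕ, q.Prime ∧ q ∣ m ∧ ∃ (K : Type) (_ : Field K) (_ : NumberField K),
    ¬ q ∣ Module.finrank ℚ K ∧
      (Nonempty (CPoint a b n m D K) ∨ ∃ P : AdelicPointOver a b n m D K, P.Orthogonal q)

/-- For every prime number `p` there is an integer `D` which is not divisible by `p ^ 2` such that `C_D` has a point
over `ℚ_p`. -/
def LocallyAttainable (a b : ℤ) (n m : ℕ) : Prop :=
  ∀ (p : ℕ) [Fact p.Prime], ∃ D : ℤ, ¬ (p : ℤ) ^ 2 ∣ D ∧ Nonempty (CPoint a b n m D ℚ_[p])

/-- Let `a X ^ n + b` be irreducible over `ℚ`, `n` odd, and let `m > 1` divide `n`.  For 100 percent of the everywhere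
locally soluble curves `C_D : D y ^ m = a x ^ n + b w ^ n` with squarefree `D` (all but `C (log X)^(-δ) E(X)` of the
`E(X)` curves with `|D| ≤ X`) and for all prime factors `q` of `m` and all number fields `K` of a degree prime to
`q` there is no point over `K` and no adelic point of `(C_D)_K` which is orthogonal to the classes `A_χ`. -/
theorem result (a b : ℤ) (n m : ℕ) (hn : Odd n) (hm : 1 < m) (hmn : m ∣ n)
    (hirr : Irreducible (C (a : ℚ) * X ^ n + C (b : ℚ))) :
    (∀ D : ℤ, D ≠ 0 → ∀ q : ℕ, q.Prime → q ∣ m → PairingProperties a b n m D q) ∧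
    (∃ δ C : ℝ, 0 < δ ∧ ∀ X : ℝ, 3 ≤ X →
      count (fun D => Soluble a b n m D ∧ Exceptional a b n m D) X ≤
        C * Real.log X ^ (-δ) * numLocSoluble a b n m X) ∧
    ((∃ D : ℤ, Squarefree D ∧ Soluble a b n m D) ↔ LocallyAttainable a b n m) ∧
    ((∀ p : ℕ, p.Prime → ¬ ((p : ℤ) ^ 2 ∣ a ∧ (p : ℤ) ^ 2 ∣ b)) → LocallyAttainable a b n m) ∧
    (LocallyAttainable a b n m → ∃ c X₀ : ℝ, 0 < c ∧ ∀ X : ℝ, X₀ ≤ X →
      c * X / Real.log X * Real.exp (sumRoots a b n X) ≤ numLocSoluble a b n m X) := by
  have h := Pool.Agent.Q51.ZC.main hn hm hmn hirr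
  have hn0 := hn.pos
  have hirr' := hirr
  rw [← Pool.Agent.Q51.ZC.fq_map] at hirr'
  obtain ⟨ha, -⟩ := Pool.Agent.Q51.ZC.fq_ne (by
    have := Nat.le_of_dvd hn0 hmn
    omega) hirr'
  refine ⟨fun D hD q hq hqm => ⟨(h.1 D hD q hq hqm).1, fun K _ _ => ⟨fun P χ => ?_, fun P => ?_⟩⟩,
    ?_, Pool.Agent.U899.LG.lg_iff hn hm hmn hirr, fun h2 p _ => Pool.Agent.U899.LG.att hn hm h2 p,
    fun h2 => h.2.2 ((Pool.Agent.U899.LG.lg_iff hn hm hmn hirr).2 h2)⟩
  · have hqn := hqm.trans hmn
    have h1 := Pool.Agent.Q51.ZC.fin_supp_over ha hq hn0 hqn hqm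
      (Pool.Agent.Q51.ZC.fq_irr hn0 hqn hirr') hD K
      (fun p v => [(1, rationalPoint (P p v))]) χ
    refine h1.subset ?_
    rintro p ⟨v, hv⟩
    refine ⟨v, ?_⟩
    unfold Pool.Agent.Q51.ZC.ZeroCycleOver.inv
    simpa using hv
  · have hqn := hqm.trans hmn
    exact Pool.Agent.Q51.ZC.adelic_orthogonal ha hq hn0 hqn hqm
      (Pool.Agent.Q51.ZC.fq_irr hn0 hqn hirr') hD K P
  · obtain ⟨δ, C, hδ, h1⟩ := Pool.Agent.Q51.ZC.main_points hn hm hmn hirr
    refine ⟨δ, C, hδ, fun X hX => le_trans ?_ (h1 X hX)⟩
    unfold Pool.Agent.Q51.ZC.numPoints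
    refine Nat.cast_le.mpr (Pool.Agent.Q51.ZC.count_mono (fun D _ hD => ⟨hD.1, ?_⟩) X)
    obtain ⟨-, q, hq, hqm, K, hK, hKn, hd, h2 | h2⟩ := hD
    · exact Or.inl ⟨q, hq, hqm, K, hK, hKn, hd, h2⟩
    · exact Or.inr ⟨q, hq, hqm, K, hK, hKn, hd, h2⟩

end Pool.Agent.Results.MP_308fa9_nt.FermatTwistsLocalGlobal
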