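import Pool.Agent.U449.BV.O
import Pool.Agent.Results.MP_308fa9_nt.BrauerManinMixedFactors

/-!
# Empty Brauer-Manin sets of the quadratic twists near the values of polynomials on arbitrary dense sets

Let `p` be a prime and `f(x, y)` ANY polynomial modulo `p` of degree at most `d` with a monomial which contains both variables (for
example `f = x y`), let `A`, `B` be ARBITRARY sets of residues modulo `p`, `g`, `h` ARBITRARY functions, and `1 ≤ W ≤ p`.
For all but `Θ |A| |B|` of the pairs `(a, b)` in `A × B`, where `Θ ^ 2 = C d e(p) (p / |A| + W p / |B|)`, `e(X) = 1 / (1 + log X) ^ s` with an `s > 0`,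
ALL squarefree integers `t` (positive or negative) with `|t|` at a distance of at most `W` from the least residue of
`f(a, b) + g(a) + h(b)` are such that no adelic point of the curve `t y² = ∏ F_k(x, w)` is orthogonal to the classes `(F_k, e)` (`deg F_k` even) and
`(F_k F_l, e)` (`deg F_k`, `deg F_l` odd); so the Brauer-Manin set of this curve is empty. Here the `F_k` are irreducible over `ℚ`, pairwise not
associated, not linear, of even total degree, and at least four have odd degree, for instance `x² + x + 1`, `x³ - 2`, `x³ - 3`, `x³ - 5`,
`x³ - 19`, where all the curves have adelic points.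
So this holds for almost all pairs if `A`, `B` are dense and `W` is small in the same sense as the set of the exceptions is sparse.
More generally, this holds for all functions `F(a, b)` with few coincidences (`Rare`).

Since the sets and the functions `g` and `h` are arbitrary, the values have no arithmetic structure, and a value may be
taken by very many pairs. So the number of the exceptions (starting library) does not give the result directly. Proof: the
inequality of Cauchy and Schwarz; for most pairs `a, a'` the difference `F(a, b) - F(a', b)` is small for few `b`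
(`Pool.Agent.U449.BV`).
-/

set_option autoImplicit false

namespace Pool.Agent.Results.MP_308fa9_nt.MixedOnDenseSets

open Polynomial Pool.Agent.W313.BMX
open Pool.Agent.U449.BV (Rare OnDense on_dense_int residues)
open Pool.Agent.Results.MP_308fa9_nt.BrauerManinMixedFactors (Factors)

/-- For ALL squarefree integers `t` with `||t| - v| ≤ W` no adelic point of the curve `t y² = ∏ F_k(x, w)` is orthogonal to the classes
`(F_k, e)` (`deg F_k` even) and `(F_k F_l, e)` (`deg F_k`, `deg F_l` odd), `e` a nonzero integer. -/
def Near {K : Type} [Fintype K] [DecidableEq K] (F : K → ℤ[X]) (W v : ℝ) : Prop :=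
  ∀ t : ℤ, |(|t| : ℝ) - v| ≤ W → Squarefree t → ∀ P : AdelicPoint F t, ¬ BrauerManinMixedFactors.Orthogonal P

/-- **Theorem.** Let the `F_k` be irreducible over `ℚ`, pairwise not associated, not linear, of even total degree, at least four of odd degree. There is
`s > 0` such that the property `Near F` holds for almost all values of functions of two variables with few coincidences on arbitrary dense
sets, with the density `1 / (1 + log X) ^ s` of exceptions (`OnDense`).
The least residues modulo `p` of `f(a, b) + g(a) + h(b)` are such a function, bounded by `X = p`, for all primes `p`, all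
polynomials `f` modulo `p` with a monomial which contains both variables, arbitrary functions `g` and `h`, and arbitrary sets of
residues. -/
theorem result :
    (∀ (K : Type) [Fintype K] [DecidableEq K] (F : K → ℤ[X]), Factors F → (∀ k, (F k).natDegree ≠ 1) →
      ∃ s : ℝ, 0 < s ∧ OnDense (fun X => 1 / (1 + Real.log X) ^ s) (Near F)) ∧
    ∀ (p : ℕ) [Fact p.Prime] (d : ℕ) (f : MvPolynomial (Fin 2) (ZMod p)), f.totalDegree ≤ d →
      (∃ m ∈ f.support, m 0 ≠ 0 ∧ m 1 ≠ 0) → ∀ (g h : ZMod p → ZMod p) (A B : Finset (ZMod p)),
        Rare d A B (fun a b => (((MvPolynomial.eval ![a, b] f + g a + h b).val : ℕ) : ℝ)) := by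
  classical
  refine ⟨fun K _ _ F hF hl => ?_, residues⟩
  obtain ⟨δ, hδ, C, hC⟩ := BrauerManinMixedFactors.result.1 K F hF hl
  refine ⟨δ, hδ, ?_⟩
  refine (on_dense_int (Good := fun t : ℤ => Squarefree t → ∀ P : AdelicPoint F t, ¬ BrauerManinMixedFactors.Orthogonal P) (s := δ) (K := C) hδ.le
    ⟨3, fun x hx => ?_⟩)
  have h1 := hC x hx
  have hlog : 0 ≤ Real.log x := Real.log_nonneg (by exact_mod_cast (by omega : 1 ≤ x))
  have e : C * (x : ℝ) * (Real.log x) ^ (-δ) = C * ((x : ℝ) / Real.log x ^ δ) := by
    rw [Real.rpow_neg hlog]
    ring
  rw [e] at h1
  refine le_trans (le_of_eq ?_) h1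
  congr 2
  ext t
  simp only [Set.mem_ofPred_eq]
  push Not
  rw [Int.abs_eq_natAbs, Nat.cast_le]

end Pool.Agent.Results.MP_308fa9_nt.MixedOnDenseSets
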