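import Pool.Agent.U188.PP.Fam
import Pool.Agent.U188.PP.Sel

/-!
# Descent by 2-power coverings on all closed subvarieties of all products of a positive proportion of
# all elliptic curves

Let `K` be a number field in which some place `v` over `2` is unramified, and let `E_1, …, E_n` be
elliptic curves `y² = x³ + A x + B`, `A`, `B` integers, `A` odd and `A = B` modulo `4`, such that the
2-Selmer group of every `E_i` over `K` is zero.  Nothing is assumed about the other primary parts of the
Tate-Shafarevich groups.  Let `X` be any closed subset of `E_1 × … × E_n` over `K`, for instance a curve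
of any genus.

Theorem.  The points of `X` over the completion `K_v` which survive the descents by `2 ^ k`-coverings
for all `k` are exactly the `K`-rational points of `X`.  And `X` has no rational point if and only if for
some `k` no `2 ^ k`-covering of `X` has points over all completions of `K`; this `k` is effective: if
some equation of `X` with coefficients integral at `v` has at the point at infinity a value not divisible
by `2 ^ k`, the `2 ^ k`-Selmer set is empty.

Theorem.  Let `K / ℚ` be a Galois extension of 2-power degree in which `2` is unramified (`K = ℚ` is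
allowed).  Then a positive proportion of ALL elliptic curves over `ℚ`, ordered by height, satisfies the
hypothesis over `K`; so that the first theorem holds for all closed subsets of all products of
these curves.

The first coordinates of the points of `2 E(K_v)` have absolute value at least `4`, and the
absolute value is multiplied by `4` when a point is doubled: the reduction is of type II, a point
never reduces to the cusp because `A + B = 2` modulo `4` (which is not `x²` modulo `4` in an
unramified ring), so the numerator of the duplication formula is a unit at integral points.  So the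
points divisible by all powers of two are zero and the points divisible by `2 ^ k` are close to zero.
Since the 2-Selmer group is zero there are no points over `K` and no classes of 2-power order in the
Tate-Shafarevich group, and a point of a covering of the Selmer set is divisible by `2 ^ k` over `K_v`.
The positive proportion is the theorem of project PV of helper922 (with helpers 3, 7, 40, 42, 50, 61, 137,
227, 273, 279, 296, 301, 323, 362, 368, 400, 415, 441, 456, 559, 592, 607, 615, 655, 667, 707, 738, 747, 774,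
803, 816, 849, 900, 907, 945, 951, 954, 966 and, for Galois cohomology, 75, 187, 426, 498, 630, 650, 692), whose
curves are of this type.
-/

set_option autoImplicit false
set_option linter.all false

namespace Pool.Agent.Results.MP_308fa9_nt.PositiveProportionDescent

open Filter NumberField IsDedekindDomain MvPolynomial Pool.Agent.TH115.GD
open scoped Classical

/-- The equation `y ^ 2 = x ^ 3 + A x + B` with integers `A`, `B` defines an elliptic curve, and
there is no prime `p` with `p ^ 4 ∣ A` and `p ^ 6 ∣ B`. Every elliptic curve over `ℚ` is isomorphic to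
exactly one of these. -/
structure IsMinimal (A B : ℤ) : Prop where
  elliptic : 4 * A ^ 3 + 27 * B ^ 2 ≠ 0
  minimal : ∀ p : ℕ, p.Prime → ¬ ((p : ℤ) ^ 4 ∣ A ∧ (p : ℤ) ^ 6 ∣ B)

/-- The height. -/
def height (p : ℤ × ℤ) : ℤ := max (4 * |p.1| ^ 3) (27 * p.2 ^ 2)

/-- The set of all elliptic curves over `ℚ` of height at most `X`. -/
def Curves (X : ℕ) : Set (ℤ × ℤ) := {p | IsMinimal p.1 p.2 ∧ height p ≤ X}

/-- The curve `y ^ 2 = x ^ 3 + A x + B` over `K`. -/
def curve (K : Type) [Field K] (p : ℤ × ℤ) : WeierstrassCurve K := ⟨0, 0, 0, (p.1 : K), (p.2 : K)⟩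

/-- The 2-Selmer group is zero: every continuous cocycle with values in the points of order two
which is a coboundary over all completions (at the finite places), with values in all points, is
the coboundary of a point of order two. -/
def SelTwoZero (K : Type) [Field K] [NumberField K] (W : WeierstrassCurve K) : Prop :=
  ∀ f : (Sep K ≃ₐ[K] Sep K) → Pt W (Sep K), IsCoc W f → (∀ σ, (2 : ℕ) • f σ = 0) →
    (∀ v : HeightOneSpectrum (𝓞 K), LocTriv W (Comp (𝓞 K) K v) (Sep (Comp (𝓞 K) K v)) f) →
    ∃ T : Pt W (Sep K), (2 : ℕ) • T = 0 ∧ ∀ σ, f σ = act W (rs K σ) T - T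

/-- The elliptic curve `y ^ 2 = x ^ 3 + A x + B` with `A` odd, `A = B` modulo `4` and trivial 2-Selmer
group over `K`. -/
structure Good (K : Type) [Field K] [NumberField K] (p : ℤ × ℤ) : Prop where
  elliptic : 4 * p.1 ^ 3 + 27 * p.2 ^ 2 ≠ 0
  odd : Odd p.1
  cong : (4 : ℤ) ∣ p.1 - p.2
  sel : SelTwoZero K (curve K p)

/-- Homogeneous coordinates of a point. -/
def coords {F : Type} [Field F] {W : WeierstrassCurve F} : W.toAffine.Point → Fin 3 → F
  | .zero => ![0, 1, 0]
  | .some x y _ => ![x, y, 1]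

section

variable {K : Type} [Field K] {n : ℕ}

/-- `f` is homogeneous of degree `d i` in the coordinates of the `i`-th point, for all `i`. -/
def MultiHom (d : Fin n → ℕ) (f : MvPolynomial (Fin n × Fin 3) K) : Prop :=
  ∀ m ∈ f.support, ∀ i, ∑ j, m (i, j) = d i

variable (K) in
/-- The `L`-rational points of `E_1 × … × E_n`, the curves over the subfield `K` of `L`. -/
abbrev Product (p : Fin n → ℤ × ℤ) (L : Type) [Field L] [Algebra K L] : Type :=
  (i : Fin n) → Pt (curve K (p i)) L

/-- The `L`-rational points of the closed subset `X` of `E_1 × … × E_n` defined by the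
equations in `S` in the homogeneous coordinates of the `n` points. -/
def Points (p : Fin n → ℤ × ℤ) (S : Set (MvPolynomial (Fin n × Fin 3) K))
    (L : Type) [Field L] [Algebra K L] : Set (Product K p L) :=
  {P | ∀ f ∈ S, aeval (fun q : Fin n × Fin 3 => coords (P q.1) q.2) f = 0}

/-- The value of `f` at the point `(O, …, O)`. -/
noncomputable def valueAtO (f : MvPolynomial (Fin n × Fin 3) K) : K :=
  eval (fun q : Fin n × Fin 3 => (![0, 1, 0] : Fin 3 → K) q.2) f

variable (K) in
/-- The cochains of the absolute Galois group of `K` with values in the points of the `E_i`. -/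
abbrev Cochains (p : Fin n → ℤ × ℤ) : Type :=
  (i : Fin n) → (Sep K ≃ₐ[K] Sep K) → Pt (curve K (p i)) (Sep K)

/-- The `L`-rational point `P` of `E_1 × … × E_n` lifts to an `L`-rational point of the
`N`-covering given by the cocycles `ξ i`: there are points `Q i` over a separable closure of `L` with
`N • Q i = P i` on which the Galois group of `L` acts by translation by the `ξ i`. -/
def Lifts (p : Fin n → ℤ × ℤ) (N : ℕ) (ξ : Cochains K p) (L : Type) [Field L] [Algebra K L]
    (P : Product K p L) : Prop :=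
  ∃ (ι : Sep K →ₐ[K] Sep L) (Q : Product K p (Sep L)),
    (∀ i, N • Q i = act (curve K (p i)) (incl K L (Sep L)) (P i)) ∧
      ∀ (i : Fin n) (τ : Sep L ≃ₐ[L] Sep L) (σ : Sep K ≃ₐ[K] Sep K), (∀ x, τ (ι x) = ι (σ x)) →
        act (curve K (p i)) ι (ξ i σ) = act (curve K (p i)) (rs K τ) (Q i) - Q i

end

section

variable (K : Type) [Field K] [NumberField K] {n : ℕ}

/-- The `N`-Selmer set of `X`: the `N`-coverings of `E_1 × … × E_n` over `K` whose pull-backs
to `X` have points over all the completions of `K` at the finite places. -/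
def SelmerSet (p : Fin n → ℤ × ℤ) (S : Set (MvPolynomial (Fin n × Fin 3) K)) (N : ℕ) :
    Set (Cochains K p) :=
  {ξ | (∀ i, IsCoc (curve K (p i)) (ξ i)) ∧ (∀ i σ, N • ξ i σ = 0) ∧
    ∀ w : HeightOneSpectrum (𝓞 K), ∃ P ∈ Points p S (Comp (𝓞 K) K w),
      Lifts p N ξ (Comp (𝓞 K) K w) P}

/-- The point `P` over the completion at `v` survives: for all `k` it lifts to a covering in the
`2 ^ k`-Selmer set of `X`. -/
def Survives (p : Fin n → ℤ × ℤ) (S : Set (MvPolynomial (Fin n × Fin 3) K))
    (v : HeightOneSpectrum (𝓞 K)) (P : Product K p (Comp (𝓞 K) K v)) : Prop :=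
  ∀ k : ℕ, ∃ ξ ∈ SelmerSet K p S (2 ^ k), Lifts p (2 ^ k) ξ (Comp (𝓞 K) K v) P

/-- The points of `X` over the completion at `v` which survive are exactly the `K`-rational points
of `X`. -/
def Exact (p : Fin n → ℤ × ℤ) (S : Set (MvPolynomial (Fin n × Fin 3) K))
    (v : HeightOneSpectrum (𝓞 K)) : Prop :=
  ∀ P ∈ Points p S (Comp (𝓞 K) K v), Survives K p S v P ↔
    ∃ y ∈ Points p S K, ∀ i, P i = act (curve K (p i)) (incl K K (Comp (𝓞 K) K v)) (y i)

/-- `X` has no `K`-rational point if and only if for some `k` its `2 ^ k`-Selmer set is empty. -/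
def Decided (p : Fin n → ℤ × ℤ) (S : Set (MvPolynomial (Fin n × Fin 3) K)) : Prop :=
  Points p S K = ∅ ↔ ∃ k : ℕ, SelmerSet K p S (2 ^ k) = ∅

/-- If the value at `(O, …, O)` of some equation of `X` with coefficients integral at `v` is not
divisible by `2 ^ k` at `v`, then the `2 ^ k`-Selmer set of `X` is empty. -/
def Effective (p : Fin n → ℤ × ℤ) (S : Set (MvPolynomial (Fin n × Fin 3) K))
    (v : HeightOneSpectrum (𝓞 K)) : Prop :=
  ∀ k : ℕ, ∀ f ∈ S, (∀ m, v.valuation K (coeff m f) ≤ 1) →
    v.valuation K (2 ^ k) < v.valuation K (valueAtO f) → SelmerSet K p S (2 ^ k) = ∅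

end

section proof

open Pool.Agent.U188.PP (Un Cong Far un_of cong_of far_pow lift_div zero_of_le)

lemma coords_eq {F : Type} [Field F] {W : WeierstrassCurve F} (P : W.toAffine.Point) :
    coords P = Pool.Agent.U188.PP.coords P := by
  rcases P with _ | ⟨x, y, h⟩
  · rfl
  · rfl

section

variable {K : Type} [Field K] {n : ℕ}

/-- the value at the point `(O, …, O)` over an extension -/
lemma aeval_O (L : Type) [Field L] [Algebra K L] (f : MvPolynomial (Fin n × Fin 3) K) :
    aeval (fun q : Fin n × Fin 3 => (![0, 1, 0] : Fin 3 → L) q.2) f =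
      algebraMap K L (valueAtO f) := by
  have e : (fun q : Fin n × Fin 3 => (![0, 1, 0] : Fin 3 → L) q.2) =
      algebraMap K L ∘ fun q => (![0, 1, 0] : Fin 3 → K) q.2 := by
    funext ⟨i, j⟩
    show (![0, 1, 0] : Fin 3 → L) j = algebraMap K L ((![0, 1, 0] : Fin 3 → K) j)
    fin_cases j <;> simp
  rw [e, aeval_algebraMap_apply, aeval_eq_eval]
  rfl

/-- the point `(O, …, O)` -/
lemma zero_mem {p : Fin n → ℤ × ℤ} {S : Set (MvPolynomial (Fin n × Fin 3) K)}
    (h : ∀ f ∈ S, valueAtO f = 0) (L : Type) [Field L] [Algebra K L] :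
    (fun i => (0 : Pt (curve K (p i)) L)) ∈ Points p S L := by
  intro f hf
  have h1 := aeval_O (n := n) L f
  rw [h f hf, map_zero] at h1
  exact h1

lemma value_zero {p : Fin n → ℤ × ℤ} {S : Set (MvPolynomial (Fin n × Fin 3) K)}
    {y : (i : Fin n) → Pt (curve K (p i)) K} (hy : y ∈ Points p S K) (h0 : ∀ i, y i = 0) :
    ∀ f ∈ S, valueAtO f = 0 := by
  intro f hf
  have h1 := hy f hf
  have e : (fun q : Fin n × Fin 3 => coords (y q.1) q.2) =
      fun q : Fin n × Fin 3 => (![0, 1, 0] : Fin 3 → K) q.2 := by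
    funext ⟨i, j⟩
    show coords (y i) j = _
    rw [h0 i]
    rfl
  rw [e, aeval_eq_eval] at h1
  exact h1

/-- the trivial covering -/
lemma zero_lifts (p : Fin n → ℤ × ℤ) (N : ℕ) (L : Type) [Field L] [Algebra K L] :
    Lifts p N (fun _ _ => 0 : Cochains K p) L (fun _ => 0) := by
  obtain ⟨ι⟩ : Nonempty (Sep K →ₐ[K] Sep L) :=
    ⟨IsSepClosed.lift⟩
  refine ⟨ι, fun _ => 0, fun i => ?_, fun i τ σ h => ?_⟩
  · rw [smul_zero, map_zero]
  · rw [map_zero, map_zero, sub_zero]

lemma zero_coc (W : WeierstrassCurve K) : IsCoc W (fun _ : Sep K ≃ₐ[K] Sep K => (0 : Pt W (Sep K))) :=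
  ⟨IsLocallyConstant.const _, fun σ τ => by rw [map_zero, add_zero]⟩

end

variable {K : Type} [Field K] [NumberField K] {n : ℕ}

lemma zero_sel {p : Fin n → ℤ × ℤ} {S : Set (MvPolynomial (Fin n × Fin 3) K)}
    (h : ∀ f ∈ S, valueAtO f = 0) (N : ℕ) : (fun _ _ => 0 : Cochains K p) ∈ SelmerSet K p S N :=
  ⟨fun i => zero_coc _, fun i σ => smul_zero _, fun w =>
    ⟨_, zero_mem h _, zero_lifts p N _⟩⟩

/-- the elements of the Selmer sets are trivial, and the points which lift are divisible -/
lemma divisible {p : Fin n → ℤ × ℤ} (hG : ∀ i, Good K (p i))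
    (w : HeightOneSpectrum (𝓞 K)) (hw : w.valuation K 2 = WithZero.exp (-1 : ℤ))
    {S : Set (MvPolynomial (Fin n × Fin 3) K)} {k : ℕ} {ξ : Cochains K p}
    (hξ : ξ ∈ SelmerSet K p S (2 ^ k)) {L : Type} [Field L] [Algebra K L]
    {P : (i : Fin n) → Pt (curve K (p i)) L} (hP : Lifts p (2 ^ k) ξ L P) :
    ∀ i, ∃ P' : Pt (curve K (p i)) L, 2 ^ k • P' = P i := by
  intro i
  obtain ⟨ι, Q, h1, h2⟩ := hP
  obtain ⟨hc, h0, hl⟩ := hξ
  obtain ⟨hsub, hsha⟩ := Pool.Agent.U188.PP.conseq K (𝓞 K) w hw (hG i).elliptic (hG i).odd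
    (hG i).cong (hG i).sel
  have hsub' : Subsingleton (Pt (curve K (p i)) K) := hsub
  obtain ⟨R, hR⟩ : ∃ R : Pt (curve K (p i)) (Sep K), ∀ σ,
      ξ i σ = act (curve K (p i)) (rs K σ) R - R := hsha (ξ i) (hc i) (fun v => by
    obtain ⟨P₁, -, ι₁, Q₁, -, h4⟩ := hl v
    exact ⟨ι₁, Q₁ i, h4 i⟩) ⟨k, 0, fun σ => by
      rw [map_zero, sub_zero]
      exact h0 i σ⟩
  have hR0 : 2 ^ k • R = 0 := by
    obtain ⟨R₀, hR₀⟩ := fixed_point (K := K) (F := K) (Ω := Sep K) (curve K (p i)) (2 ^ k • R) (by
      intro τ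
      have h5 := h0 i τ
      rw [hR τ, smul_sub, sub_eq_zero, ← map_nsmul] at h5
      exact h5)
    have h6 : R₀ = 0 := Subsingleton.elim (h := hsub') R₀ 0
    rw [← hR₀, h6, map_zero]
  exact lift_div (curve K (p i)) ι (Q i) (P i) (h1 i) (ξ i) (h2 i) R hR0 hR

/-- the curve over an extension -/
lemma curve_base (p : ℤ × ℤ) (L : Type) [Field L] [Algebra K L] :
    (curve K p).baseChange L = ⟨0, 0, 0, (p.1 : L), (p.2 : L)⟩ := by
  show (curve K p).map (algebraMap K L) = _
  simp [curve, WeierstrassCurve.map]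

/-- the valuation of the completion -/
noncomputable abbrev cv (w : HeightOneSpectrum (𝓞 K)) :
    Valuation (Comp (𝓞 K) K w) (WithZero (Multiplicative ℤ)) :=
  (Valued.v : Valuation (w.adicCompletion K) (WithZero (Multiplicative ℤ)))

lemma cv_coe (w : HeightOneSpectrum (𝓞 K)) (x : K) :
    cv w (algebraMap K (Comp (𝓞 K) K w) x) = w.valuation K x :=
  HeightOneSpectrum.valuedAdicCompletion_eq_valuation' w x

lemma cv_two {w : HeightOneSpectrum (𝓞 K)} (hw : w.valuation K 2 = WithZero.exp (-1 : ℤ)) :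
    cv w 2 = WithZero.exp (-1 : ℤ) := by
  have := cv_coe w 2
  rw [map_ofNat, hw] at this
  exact this

/-- the points which lift are close to the point at infinity -/
lemma far {p : Fin n → ℤ × ℤ} (hG : ∀ i, Good K (p i))
    (w : HeightOneSpectrum (𝓞 K)) (hw : w.valuation K 2 = WithZero.exp (-1 : ℤ))
    {S : Set (MvPolynomial (Fin n × Fin 3) K)} {k : ℕ} {ξ : Cochains K p}
    (hξ : ξ ∈ SelmerSet K p S (2 ^ (k + 1))) {P : (i : Fin n) → Pt (curve K (p i)) (Comp (𝓞 K) K w)}
    (hP : Lifts p (2 ^ (k + 1)) ξ (Comp (𝓞 K) K w) P) (i : Fin n) : Far (cv w) (k + 1) (P i) := by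
  obtain ⟨P', hP'⟩ := divisible hG w hw hξ hP i
  rw [← hP']
  exact far_pow (un_of (cv_two hw)) (curve_base (p i) _) (cong_of (hG i).odd (hG i).cong) k P'

/-- the value at `(O, …, O)` of an equation -/
lemma value_le {p : Fin n → ℤ × ℤ} (hG : ∀ i, Good K (p i))
    (w : HeightOneSpectrum (𝓞 K)) (hw : w.valuation K 2 = WithZero.exp (-1 : ℤ))
    {S : Set (MvPolynomial (Fin n × Fin 3) K)} {k : ℕ}
    (hne : (SelmerSet K p S (2 ^ (k + 1))).Nonempty) {f : MvPolynomial (Fin n × Fin 3) K}
    (hf : f ∈ S) {d : Fin n → ℕ} (hd : MultiHom d f) {C : WithZero (Multiplicative ℤ)}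
    (hC : ∀ m, w.valuation K (coeff m f) ≤ C) :
    w.valuation K (valueAtO f) ≤ C * WithZero.exp (-1 : ℤ) ^ (k + 1) := by
  obtain ⟨ξ, hξ⟩ := hne
  obtain ⟨P, hP, hl⟩ := hξ.2.2 w
  have h1 := hP f hf
  rw [aeval_def, ← eval_map] at h1
  have h2 := Pool.Agent.U188.PP.close (v := cv w) (un_of (cv_two hw))
    (fun i => (curve K (p i)).baseChange (Comp (𝓞 K) K w)) (fun i => ((p i).1 : Comp (𝓞 K) K w))
    (fun i => ((p i).2 : Comp (𝓞 K) K w)) (fun i => curve_base (p i) _)
    (fun i => cong_of (hG i).odd (hG i).cong) (k := k + 1) (by omega) (P := P)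
    (fun i => far hG w hw hξ hl i) (d := d) (f := map (algebraMap K (Comp (𝓞 K) K w)) f) (by
      intro m hm i
      exact hd m (support_map_subset _ f hm) i) (C := C) (by
      intro m
      rw [coeff_map]
      exact (le_of_eq (cv_coe w _)).trans (hC m)) (by
      simp only [← coords_eq]
      exact h1)
  rw [cv_two hw, eval_map, ← aeval_def, aeval_O] at h2
  exact (le_of_eq (cv_coe w _).symm).trans h2

/-- the coefficients are bounded -/
lemma exists_bound (w : HeightOneSpectrum (𝓞 K)) (f : MvPolynomial (Fin n × Fin 3) K) :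
    ∃ C, ∀ m, w.valuation K (coeff m f) ≤ C := by
  refine ⟨f.support.sup fun m => w.valuation K (coeff m f), fun m => ?_⟩
  by_cases hm : m ∈ f.support
  · exact Finset.le_sup (f := fun m => w.valuation K (coeff m f)) hm
  · rw [notMem_support_iff.1 hm, map_zero]
    exact zero_le'

/-- values of integral equations are integral -/
lemma value_int (w : HeightOneSpectrum (𝓞 K)) {f : MvPolynomial (Fin n × Fin 3) K}
    (hf : ∀ m, w.valuation K (coeff m f) ≤ 1) : w.valuation K (valueAtO f) ≤ 1 := by
  unfold valueAtO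
  rw [eval_eq']
  refine Valuation.map_sum_le _ fun m _ => ?_
  rw [map_mul]
  refine mul_le_one' (hf m) (Pool.Agent.U188.PP.prod_le _ fun q _ => ?_)
  refine Pool.Agent.U188.PP.v_pow_le ?_ _
  obtain ⟨i, j⟩ := q
  fin_cases j <;> simp

/-- if all Selmer sets are nonempty, then `(O, …, O)` is a point of `X` -/
lemma value_zero_of {p : Fin n → ℤ × ℤ} (hG : ∀ i, Good K (p i))
    (w : HeightOneSpectrum (𝓞 K)) (hw : w.valuation K 2 = WithZero.exp (-1 : ℤ))
    {S : Set (MvPolynomial (Fin n × Fin 3) K)} (hS : ∀ f ∈ S, ∃ d, MultiHom d f)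
    (hne : ∀ k : ℕ, (SelmerSet K p S (2 ^ k)).Nonempty) : ∀ f ∈ S, valueAtO f = 0 := by
  intro f hf
  obtain ⟨d, hd⟩ := hS f hf
  obtain ⟨C, hC⟩ := exists_bound w f
  have h1 : w.valuation K (valueAtO f) = 0 := by
    refine zero_of_le (C := C) rfl fun k => ?_
    refine (value_le hG w hw (hne (k + 1)) hf hd hC).trans ?_
    refine mul_le_mul_right ?_ C
    refine pow_le_pow_right_of_le_one' ?_ (by omega)
    rw [← WithZero.exp_zero, WithZero.exp_le_exp]
    norm_num
  exact (Valuation.zero_iff _).1 h1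

/-- a point close to the point at infinity to all orders is the point at infinity -/
lemma far_zero (w : HeightOneSpectrum (𝓞 K)) (hw : w.valuation K 2 = WithZero.exp (-1 : ℤ))
    {W : WeierstrassCurve (Comp (𝓞 K) K w)} {P : W.toAffine.Point}
    (h : ∀ k : ℕ, Far (cv w) (k + 1) P) : P = 0 := by
  by_contra h0
  obtain ⟨x, y, hxy, hP, -⟩ := (h 0).resolve_left h0
  have h1 : ∀ k : ℕ, (1 : WithZero (Multiplicative ℤ)) ≤ cv w x * WithZero.exp (-1 : ℤ) ^ k := by
    intro k
    obtain ⟨x', y', hxy', hP', h2⟩ := (h k).resolve_left h0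
    rw [hP] at hP'
    obtain ⟨rfl, rfl⟩ := WeierstrassCurve.Affine.Point.some.inj hP'
    refine h2.trans ?_
    rw [cv_two hw]
    refine mul_le_mul_right ?_ _
    refine pow_le_pow_right_of_le_one' ?_ (by omega)
    rw [← WithZero.exp_zero, WithZero.exp_le_exp]
    norm_num
  exact one_ne_zero (zero_of_le rfl h1)

lemma crv_iff (X : ℕ) (p : ℤ × ℤ) : Pool.Agent.N922.PQ.Crv X p.1 p.2 ↔ p ∈ Curves X := by
  constructor
  · rintro ⟨h1, h2, h3, h4⟩
    exact ⟨⟨h1, h2⟩, max_le h3 h4⟩
  · rintro ⟨⟨h1, h2⟩, h3⟩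
    exact ⟨h1, h2, (le_max_left _ _).trans h3, (le_max_right _ _).trans h3⟩

lemma curves_nonempty {X : ℕ} (hX : 27 ≤ X) : ((1, 1) : ℤ × ℤ) ∈ Curves X := by
  refine ⟨⟨by norm_num, ?_⟩, ?_⟩
  · rintro p hp ⟨h, -⟩
    have h1 : ((p : ℤ)) ∣ 1 := (dvd_pow_self (p : ℤ) (by norm_num)).trans h
    have h2 : p ∣ 1 := by exact_mod_cast h1
    exact hp.one_lt.ne' (Nat.dvd_one.1 h2)
  · have : height ((1, 1) : ℤ × ℤ) = 27 := by
      simp [height]
    rw [this]
    exact_mod_cast hX

end proof

/-- **Main theorem.** -/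
theorem result :
    (∀ (K : Type) [Field K] [NumberField K] (v : HeightOneSpectrum (𝓞 K)),
      v.valuation K 2 = WithZero.exp (-1 : ℤ) →
      ∀ (n : ℕ) (p : Fin n → ℤ × ℤ), (∀ i, Good K (p i)) →
        (∀ i, Subsingleton (Pt (curve K (p i)) K)) ∧
        ∀ S : Set (MvPolynomial (Fin n × Fin 3) K), (∀ f ∈ S, ∃ d, MultiHom d f) →
          Exact K p S v ∧ Decided K p S ∧ Effective K p S v) ∧
    (∀ (K : Type) [Field K] [NumberField K] [IsGalois ℚ K] (n : ℕ),
      Module.finrank ℚ K = 2 ^ n → (∀ 𝔭 : Ideal (𝓞 K), 𝔭.IsPrime → (2 : 𝓞 K) ∉ 𝔭 ^ 2) →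
      (∀ X : ℕ, (Curves X).Finite) ∧
      ∃ c : ℝ, 0 < c ∧ ∀ᶠ X : ℕ in atTop, 0 < (Curves X).ncard ∧
        c * ((Curves X).ncard : ℝ) ≤ (({p ∈ Curves X | Good K p}).ncard : ℝ)) := by
  refine ⟨fun K _ _ v hv n p hG => ?_, fun K _ _ _ n hn h2 => ?_⟩
  · have hsub : ∀ i, Subsingleton (Pt (curve K (p i)) K) := fun i =>
      (Pool.Agent.U188.PP.conseq K (𝓞 K) v hv (hG i).elliptic (hG i).odd
        (hG i).cong (hG i).sel).1
    refine ⟨hsub, fun S hS => ⟨fun P hP => ⟨fun h => ?_, ?_⟩, ⟨fun h => ?_, ?_⟩, ?_⟩⟩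
    · have h0 : ∀ i, P i = 0 := fun i => far_zero v hv fun k => by
        obtain ⟨ξ, hξ, hl⟩ := h (k + 1)
        exact far hG v hv hξ hl i
      have h1 : ∀ f ∈ S, valueAtO f = 0 := by
        intro f hf
        have h2 := hP f hf
        have e : (fun q : Fin n × Fin 3 => coords (P q.1) q.2) =
            fun q : Fin n × Fin 3 => (![0, 1, 0] : Fin 3 → Comp (𝓞 K) K v) q.2 := by
          funext ⟨i, j⟩
          show coords (P i) j = _
          rw [h0 i]
          rfl
        rw [e, aeval_O] at h2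
        exact (map_eq_zero _).1 h2
      refine ⟨fun _ => 0, zero_mem h1 K, fun i => ?_⟩
      rw [h0 i, map_zero]
    · rintro ⟨y, hy, hPy⟩
      have hy0 : ∀ i, y i = 0 := fun i => Subsingleton.elim (h := hsub i) _ _
      have hP0 : P = fun _ => 0 := by
        funext i
        rw [hPy i, hy0 i, map_zero]
      intro k
      refine ⟨_, zero_sel (value_zero hy hy0) _, ?_⟩
      rw [hP0]
      exact zero_lifts p _ _
    · by_contra hcon
      push Not at hcon
      have h1 := value_zero_of hG v hv hS fun k => hcon k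
      have h3 := zero_mem (p := p) h1 K
      rw [h] at h3
      exact h3
    · rintro ⟨k, hk⟩
      rw [Set.eq_empty_iff_forall_notMem]
      intro y hy
      have hy0 : ∀ i, y i = 0 := fun i => Subsingleton.elim (h := hsub i) _ _
      have h3 := zero_sel (K := K) (p := p) (S := S) (value_zero hy hy0) (2 ^ k)
      rw [hk] at h3
      exact h3
    · intro k f hf hC hlt
      by_contra hcon
      have hne : (SelmerSet K p S (2 ^ k)).Nonempty := Set.nonempty_iff_ne_empty.2 hcon
      rcases k with _ | k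
      · rw [pow_zero, map_one] at hlt
        exact absurd hlt (not_lt.2 (value_int v hC))
      · obtain ⟨d, hd⟩ := hS f hf
        have h3 := value_le hG v hv hne hf hd hC
        rw [one_mul, ← hv, ← map_pow] at h3
        exact absurd hlt (not_lt.2 h3)
  · have hset : ∀ X : ℕ, Curves X = {p : ℤ × ℤ | Pool.Agent.N922.PQ.Crv X p.1 p.2} := by
      intro X
      ext p
      exact (crv_iff X p).symm
    have hfin : ∀ X : ℕ, (Curves X).Finite := fun X => by
      rw [hset]
      exact Pool.Agent.N922.PQ.crv_fin X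
    refine ⟨hfin, ?_⟩
    obtain ⟨c, hc, X₀, h⟩ := Pool.Agent.U188.PP.finalO K (𝓞 K) hn
      (Pool.Agent.N922.PQ.val_two_of h2)
    refine ⟨c, hc, ?_⟩
    filter_upwards [eventually_ge_atTop (max X₀ 27)] with X hX
    refine ⟨(Set.ncard_pos (hfin X)).2 ⟨_, curves_nonempty ((le_max_right _ _).trans hX)⟩, ?_⟩
    have h1 := (h X ((le_max_left _ _).trans hX)).2
    rw [← hset] at h1
    refine h1.trans ?_
    have h3 : {p : ℤ × ℤ | Pool.Agent.N922.PQ.Crv X p.1 p.2 ∧
        Pool.Agent.U188.PP.GoodO (M := K) (𝓞 K) p} ⊆ {p ∈ Curves X | Good K p} := by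
      rintro p ⟨hp, ho, h4, hs⟩
      exact ⟨(crv_iff X p).1 hp, hp.disc, ho, h4, hs⟩
    have h4 := Set.ncard_le_ncard h3 ((hfin X).subset fun p hp => hp.1)
    exact_mod_cast h4

end Pool.Agent.Results.MP_308fa9_nt.PositiveProportionDescent
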