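import Pool.Agent.Q51.EB.All2
import Pool.Agent.Q51.EL.All

/-!
# The Brauer-Manin sets of 100% of the everywhere locally soluble twists are empty

Let `f ∈ ℤ[x]` be irreducible over `ℚ`, of even degree `n ≥ 6`, with the homogenisation `F(x, w)`, let `m` be an even
divisor of `n`, for instance `m = 2`, and let `C_D : D y ^ m = F(x, w)` be the twists of the curve `y ^ m = f(x)`, smooth
projective curves in the weighted projective plane of weights `(1, 1, n/m)`, of genus at least `2`.

Let `L = ℚ[X]/(f) = ℚ(θ)`.  For `ε ∈ L^*` whose norm is a square the class `A_ε = Cor_{L/ℚ} (x - θ w, ε)` of the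
corestriction of a quaternion algebra lies in `Br(C_D)`: the divisor of `x - θ w` is even, and a constant factor of
`x - θ w` does not change the class, as the norm of `ε` is a square.

**Theorem.** For all but `C (log X)^(-δ) E(X)` of the `E(X)` everywhere locally soluble curves `C_D` with squarefree
`D`, `|D| ≤ X`, no adelic point is orthogonal to all classes `A_ε`.  So the Brauer-Manin sets of 100 percent of the
everywhere locally soluble curves `C_D` are empty, and Stoll's conjecture is true for them: there are no rational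
points.  The curves violate the Hasse principle.  No assumption is made on Jacobians or Tate-Shafarevich groups.

If some `C_D` is everywhere locally soluble, which is always so for `m = 2`, then
`E(X) ≥ c X / log X * exp (∑ 1/l)` for large `X`, the sum over the primes `l ≤ X` modulo which `f` has a zero.  (These
primes have a positive density less than `1`, so `E(X)` is `X` divided by a power of `log X`.)

The local invariants of `A_ε` are computed with Serre's formula: for `a, b` in an étale algebra `A` over a local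
field `F` and the quadratic forms `q_u(z) = Tr (u z ^ 2)` with the Hasse-Witt invariants `s(q_u)` one has
`inv Cor_{A/F} (a, b) = s(q_{ab}) s(q_a) s(q_b) s(q_1) (N a, N b)`.  See `Pool/Agent/Q51/EB/Def.lean` for `hs`, `HW`, `hw`,
`gram`, `cor`, `up`, `SqN`.

Proof.  Let `(c_v)` be the values of `x - θ w` at an orthogonal adelic point.  For a good prime `l ∣ D` the element
`c_l` has odd valuation at exactly one prime `v0(l)` above `l`, of degree one.  Let `β ∈ 𝓞 L` have the divisor
`∏ v0(l)` up to a bounded factor, and small conjugates.  Comparing the orthogonality to `A_ε` with the product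
formula for `Cor (β, ε)` one finds that for two `D`, `D'` with the same data at the bad places and a common `v0(l)`
the product `β β'` is a rational number times a square modulo all other primes above `l`.  The number of such `β` is
bounded by the large sieve in dimension `n`.

(helper51, with helper26, helper58, helper68, helper91, helper154, helper187, helper198, helper239, helper241,
helper247, helper52; assembled by helper899.)
-/

set_option autoImplicit false

open Polynomial Finset

namespace Pool.Agent.Results.MP_308fa9_nt.SolubleTwists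

open Pool.Agent.Q51.EB (cor up SqN)

section curves

variable {f : ℤ[X]} {m : ℕ} {D : ℤ} {F : Type} [Field F]

/-- The homogenisation `F(x, w) = ∑ i, a i * x ^ i * w ^ (n - i)` of `f = ∑ i, a i * x ^ i`, where
`n = deg f`. -/
noncomputable def homog (f : ℤ[X]) {R : Type} [CommRing R] (x w : R) : R :=
  ∑ i ∈ range (f.natDegree + 1), (f.coeff i : R) * x ^ i * w ^ (f.natDegree - i)

/-- A point over `F` of the curve `C_D : D y ^ m = F(x, w)`. -/
structure Point (f : ℤ[X]) (m : ℕ) (D : ℤ) (F : Type) [Field F] where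
  /-- the first coordinate -/
  x : F
  /-- the second coordinate -/
  w : F
  /-- the third coordinate -/
  y : F
  ne : x ≠ 0 ∨ w ≠ 0
  eq : (D : F) * y ^ m = homog f x w

/-- An adelic point of the curve `C_D`. -/
structure AdelicPoint (f : ℤ[X]) (m : ℕ) (D : ℤ) where
  /-- the real component -/
  re : Point f m D ℝ
  /-- the `p`-adic components -/
  pa : ∀ p : Nat.Primes, Point f m D ℚ_[(p : ℕ)]

/-- The polynomial `x - X w`, which gives the element `ξ = x - θ w` of `F[X]/(f)` at the point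
`P = (x : y : w)`. -/
noncomputable def Point.lin (P : Point f m D F) : F[X] := C P.x - C P.w * X

/-- The element `c(θ)` of `F[X]/(f)` is a value of `ξ = x - θ w` at the point: it is invertible, it is equal to
`ξ` in all components in which `ξ` does not vanish, and `D * lc(f) * N(c(θ))` is a square (as for all other points).
If `ξ` vanishes in one component (which is the case at a branch point), this component of `c(θ)` is determined up to
squares by this condition. -/
def Point.Val (P : Point f m D F) (c : F[X]) : Prop :=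
  IsCoprime (up f F) c ∧ up f F ∣ P.lin * (c - P.lin) ∧
    IsSquare (((D * f.leadingCoeff : ℤ) : F) * Algebra.norm F (AdjoinRoot.mk (up f F) c))

open Classical in
/-- The local invariant of `A_ε` at the point `P` over `F`, as an element of `{1, -1}`. -/
noncomputable def Point.inv (P : Point f m D F) (ε : F[X]) : ℤˣ :=
  if h : ∃ c, P.Val c then cor (up f F) (Classical.choose h) ε else 1

/-- The places of `ℚ` (`none` is the real one) at which the local invariant of `A_ε` at the adelic point is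
`-1`. -/
def AdelicPoint.ram (P : AdelicPoint f m D) (ε : ℚ[X]) : Set (Option Nat.Primes) :=
  {v | match v with
    | none => P.re.inv (ε.map (Rat.castHom ℝ)) = -1
    | some p => (P.pa p).inv (ε.map (Rat.castHom ℚ_[(p : ℕ)])) = -1}

/-- The adelic point is orthogonal to all classes `A_ε`: the product of the local invariants (almost all of them
are `1`) is `1`. -/
def AdelicPoint.Orthogonal (P : AdelicPoint f m D) : Prop :=
  ∀ ε : ℚ[X], SqN f ε → (P.ram ε).Finite ∧ Even (P.ram ε).ncard

/-- The point over `F` given by a rational point. -/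
noncomputable def Point.base (Q : Point f m D ℚ) (F : Type) [Field F] [CharZero F] :
    Point f m D F where
  x := Q.x
  w := Q.w
  y := Q.y
  ne := by
    rcases Q.ne with h | h
    · left; exact_mod_cast h
    · right; exact_mod_cast h
  eq := by
    have h := congrArg (fun q : ℚ => (q : F)) Q.eq
    simp only [homog] at h ⊢
    push_cast at h
    exact h

/-- The adelic point given by a rational point. -/
noncomputable def Point.adelic (Q : Point f m D ℚ) : AdelicPoint f m D where
  re := Q.base ℝ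
  pa := fun p => Q.base ℚ_[(p : ℕ)]

end curves

/-- The local invariants at the points over `F` are well defined: values exist, and all of them give the same
invariant. -/
def WellDefined (f : ℤ[X]) (m : ℕ) (D : ℤ) (F : Type) [Field F] : Prop :=
  ∀ P : Point f m D F, (∃ c, P.Val c) ∧
    ∀ c, P.Val c → ∀ ε : F[X], IsCoprime (up f F) ε → P.inv ε = cor (up f F) c ε

/-- The pairing of the adelic points with the classes `A_ε` is well defined and has the usual properties: the
local invariants over `ℝ` and the `ℚ_p` do not depend on choices, almost all local invariants at an adelic point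
are trivial, and rational points are orthogonal. -/
def PairingProperties (f : ℤ[X]) (m : ℕ) (D : ℤ) : Prop :=
  WellDefined f m D ℝ ∧ (∀ p : Nat.Primes, WellDefined f m D ℚ_[(p : ℕ)]) ∧
  (∀ (P : AdelicPoint f m D) (ε : ℚ[X]), SqN f ε → (P.ram ε).Finite) ∧
  ∀ Q : Point f m D ℚ, Q.adelic.Orthogonal

/-- The number of the squarefree `D` with `|D| ≤ X` and the property `P`. -/
noncomputable def count (P : ℤ → Prop) (X : ℝ) : ℝ :=
  {D : ℤ | Squarefree D ∧ |(D : ℝ)| ≤ X ∧ P D}.ncard

/-- The number of the squarefree `D` with `|D| ≤ X` for which `C_D` is everywhere locally soluble. -/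
noncomputable def numSoluble (f : ℤ[X]) (m : ℕ) (X : ℝ) : ℝ :=
  count (fun D => Nonempty (AdelicPoint f m D)) X

/-- The number of the squarefree `D` with `|D| ≤ X` for which some adelic point of `C_D` is orthogonal to all classes
`A_ε`. -/
noncomputable def numOrthogonal (f : ℤ[X]) (m : ℕ) (X : ℝ) : ℝ :=
  count (fun D => ∃ P : AdelicPoint f m D, P.Orthogonal) X

/-- The sum of `1 / l` over the primes `l ≤ X` modulo which `f` has a zero. -/
noncomputable def sumRoots (f : ℤ[X]) (X : ℝ) : ℝ :=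
  ∑' l : {l : ℕ | l.Prime ∧ (l : ℝ) ≤ X ∧ ∃ r : ℤ, (l : ℤ) ∣ f.eval r}, (1 : ℝ) / (l : ℕ)

/-! ## Proofs -/

section proofs

variable {f : ℤ[X]} {m : ℕ} {D : ℤ}

lemma sumRoots_eq (f : ℤ[X]) (X : ℝ) : sumRoots f X = Pool.Agent.Q51.EL.Gf f X := by
  classical
  rw [Pool.Agent.Q91.EL.Gf_eq]
  unfold sumRoots
  have hs : {l : ℕ | l.Prime ∧ (l : ℝ) ≤ X ∧ ∃ r : ℤ, (l : ℤ) ∣ f.eval r} =
      ((Pool.Agent.Q51.EL.pr X).filter (fun l : ℕ => ∃ r : ℤ, (l : ℤ) ∣ f.eval r) : Finset ℕ) := by
    ext l
    simp only [Set.mem_ofPred_eq, Finset.coe_filter, Pool.Agent.Q51.EL.pr, Finset.mem_filter,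
      Finset.mem_Icc]
    constructor
    · rintro ⟨h1, h2, h3⟩
      exact ⟨⟨⟨h1.one_le, Nat.le_floor h2⟩, h1⟩, h3⟩
    · rintro ⟨⟨⟨h1, h2⟩, h3⟩, h4⟩
      exact ⟨h3, (Nat.le_floor_iff' h3.ne_zero).1 h2, h4⟩
  rw [hs]
  exact Finset.tsum_subtype _ (fun l : ℕ => (1 : ℝ) / l)

lemma f_ne (hf : Irreducible (f.map (Int.castRingHom ℚ))) : f ≠ 0 := by
  rintro rfl
  rw [Polynomial.map_zero] at hf
  exact not_irreducible_zero hf

lemma exists_val (hf : Irreducible (f.map (Int.castRingHom ℚ))) (hm : Even m) (hD : D ≠ 0)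
    {F : Type} [Field F] [CharZero F] (P : Point f m D F) : ∃ c, P.Val c := by
  obtain ⟨r, rfl⟩ := hm
  obtain ⟨-, -, -, hsep, -⟩ := Pool.Agent.Q247.EB.bc f hf F 1
  have h := P.eq
  exact Pool.Agent.Q51.EB.isVal_exists (f_ne hf) hsep hD P.x P.w (P.y ^ r) P.ne (by
    rw [← pow_mul, mul_two]
    exact h)

lemma wd (hf : Irreducible (f.map (Int.castRingHom ℚ))) (h2 : 2 ≤ f.natDegree) (hm : Even m)
    (hD : D ≠ 0) {F : Type} [Field F] [CharZero F] [Infinite F] (hF : Pool.Agent.Q51.EB.Hil F) :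
    WellDefined f m D F := by
  intro P
  have hex := exists_val hf hm hD P
  refine ⟨hex, fun c hc ε hε => ?_⟩
  unfold Point.inv
  rw [dif_pos hex]
  exact Pool.Agent.Q51.EB.cor_isVal hf h2 hF hD P.x P.w P.ne _ _ (Classical.choose_spec hex) hc ε hε

/-- the values at an adelic point -/
noncomputable def toAVal (hf : Irreducible (f.map (Int.castRingHom ℚ))) (hm : Even m) (hD : D ≠ 0)
    (P : AdelicPoint f m D) : Pool.Agent.Q51.EB.AVal f D where
  re := Classical.choose (exists_val hf hm hD P.re)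
  hre := by
    have h := Classical.choose_spec (exists_val hf hm hD P.re)
    obtain ⟨r, rfl⟩ := hm
    exact ⟨P.re.x, P.re.w, P.re.y ^ r, P.re.ne, by
      rw [← pow_mul, mul_two]; exact P.re.eq, h.1, h.2.1, h.2.2⟩
  pa := fun p => Classical.choose (exists_val hf hm hD (P.pa p))
  hpa := by
    intro p
    have h := Classical.choose_spec (exists_val hf hm hD (P.pa p))
    obtain ⟨r, rfl⟩ := hm
    exact ⟨(P.pa p).x, (P.pa p).w, (P.pa p).y ^ r, (P.pa p).ne, by
      rw [← pow_mul, mul_two]; exact (P.pa p).eq, h.1, h.2.1, h.2.2⟩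

lemma ram_eq (hf : Irreducible (f.map (Int.castRingHom ℚ))) (hm : Even m) (hD : D ≠ 0)
    (P : AdelicPoint f m D) (ε : ℚ[X]) :
    P.ram ε = Pool.Agent.Q51.EB.ramA (toAVal hf hm hD P) ε := by
  ext v
  cases v with
  | none =>
    have h := exists_val hf hm hD P.re
    show P.re.inv (ε.map (Rat.castHom ℝ)) = -1 ↔
      cor (up f ℝ) (Classical.choose (exists_val hf hm hD P.re)) (ε.map (Rat.castHom ℝ)) = -1
    unfold Point.inv
    rw [dif_pos h]
  | some p =>
    have h := exists_val hf hm hD (P.pa p)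
    show (P.pa p).inv (ε.map (Rat.castHom ℚ_[(p : ℕ)])) = -1 ↔
      cor (up f ℚ_[(p : ℕ)]) (Classical.choose (exists_val hf hm hD (P.pa p)))
        (ε.map (Rat.castHom ℚ_[(p : ℕ)])) = -1
    unfold Point.inv
    rw [dif_pos h]

lemma fin_ram (hf : Irreducible (f.map (Int.castRingHom ℚ))) (hev : Even f.natDegree)
    (h2 : 2 ≤ f.natDegree) (hm : Even m) (hD : Squarefree D) (P : AdelicPoint f m D) (ε : ℚ[X])
    (hε : SqN f ε) : (P.ram ε).Finite := by
  rw [ram_eq hf hm hD.ne_zero]
  exact Pool.Agent.Q51.EB.fin_ramA f hf hev h2 D hD _ ε hε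

lemma lin_cop (hf : Irreducible (f.map (Int.castRingHom ℚ))) (hdeg : 2 ≤ f.natDegree)
    (Q : Point f m D ℚ) : IsCoprime (up f ℚ) Q.lin := by
  have ha0 : Q.lin ≠ 0 := by
    intro h
    have h3 := congrArg (fun q : ℚ[X] => q.coeff 0) h
    have h4 := congrArg (fun q : ℚ[X] => q.coeff 1) h
    simp only [Point.lin, coeff_sub, coeff_C_zero, coeff_C_mul, coeff_X_zero, mul_zero, sub_zero,
      coeff_zero] at h3
    simp only [Point.lin, coeff_sub, coeff_C_succ, coeff_C_mul, coeff_X_one, mul_one, zero_sub,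
      coeff_zero, neg_eq_zero] at h4
    rcases Q.ne with h5 | h5
    · exact h5 h3
    · exact h5 h4
  rw [hf.coprime_iff_not_dvd]
  intro hd
  have h3 := natDegree_le_of_dvd hd ha0
  have h4 : Q.lin.natDegree ≤ 1 := by
    unfold Point.lin
    refine (natDegree_sub_le _ _).trans (max_le ?_ ?_)
    · rw [natDegree_C]
      exact Nat.zero_le _
    · exact (natDegree_C_mul_le Q.w X).trans natDegree_X_le
  have h5 : (up f ℚ).natDegree = f.natDegree := Pool.Agent.Q58.EB.up_deg f
  have h6 : (f.map (Int.castRingHom ℚ)).natDegree = f.natDegree := h5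
  rw [h6] at h3
  omega

lemma base_val (hf : Irreducible (f.map (Int.castRingHom ℚ))) (hdeg : 2 ≤ f.natDegree)
    (hm : Even m) (Q : Point f m D ℚ) (F : Type) [Field F] [CharZero F] :
    (Q.base F).Val (Q.lin.map (Rat.castHom F)) := by
  have h3 := Pool.Agent.Q247.EB.bc f hf F Q.lin
  have hcop := lin_cop hf hdeg Q
  have e1 : Q.lin.map (Rat.castHom F) = (Q.base F).lin := by
    unfold Point.lin Point.base
    simp
  refine ⟨h3.2.2.1 hcop, ?_, ?_⟩
  · rw [e1, sub_self, mul_zero]
    exact dvd_zero _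
  · rw [h3.1]
    obtain ⟨r, rfl⟩ := hm
    refine ⟨((D * Q.y ^ r : ℚ) : F), ?_⟩
    have h4 := Pool.Agent.Q58.EB.norm_lin (F := ℚ) (f_ne hf) Q.x Q.w
    have h7 : Pool.Agent.Q51.EL.hom f Q.x Q.w = D * (Q.y ^ r) ^ 2 := by
      rw [← pow_mul, mul_two]
      exact Q.eq.symm
    have h5 : ((D * f.leadingCoeff : ℤ) : ℚ) *
        Algebra.norm ℚ (AdjoinRoot.mk (up f ℚ) Q.lin) = (D * Q.y ^ r) * (D * Q.y ^ r) := by
      push_cast
      rw [mul_assoc]
      unfold Point.lin
      rw [h4, h7]
      ring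
    have h6 := congrArg (fun q : ℚ => (q : F)) h5
    push_cast at h6 ⊢
    exact h6

lemma rational (hf : Irreducible (f.map (Int.castRingHom ℚ))) (hdeg : 2 ≤ f.natDegree)
    (hm : Even m) (hD : D ≠ 0) (Q : Point f m D ℚ) : Q.adelic.Orthogonal := by
  intro ε hε
  have h3 := Pool.Agent.Q51.EB.t_pfc f hf Q.lin ε (lin_cop hf hdeg Q) hε.1
  have e2 : Q.adelic.ram ε = Pool.Agent.Q51.EB.ramG f Q.lin ε := by
    ext v
    cases v with
    | none =>
      have h4 := (wd hf hdeg hm hD (F := ℝ) Pool.Agent.Q247.EB.bil.1 (Q.base ℝ)).2 _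
        (base_val hf hdeg hm Q ℝ) (ε.map (Rat.castHom ℝ))
        ((Pool.Agent.Q247.EB.bc f hf ℝ ε).2.2.1 hε.1)
      show (Q.base ℝ).inv (ε.map (Rat.castHom ℝ)) = -1 ↔ _
      rw [h4]
      rfl
    | some p =>
      have h4 := (wd hf hdeg hm hD (F := ℚ_[(p : ℕ)]) (Pool.Agent.Q247.EB.bil.2 (p : ℕ))
        (Q.base ℚ_[(p : ℕ)])).2 _ (base_val hf hdeg hm Q ℚ_[(p : ℕ)])
        (ε.map (Rat.castHom ℚ_[(p : ℕ)]))
        ((Pool.Agent.Q247.EB.bc f hf ℚ_[(p : ℕ)] ε).2.2.1 hε.1)
      show (Q.base ℚ_[(p : ℕ)]).inv (ε.map (Rat.castHom ℚ_[(p : ℕ)])) = -1 ↔ _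
      rw [h4]
      rfl
  rw [e2]
  exact h3

lemma els_iff (D : ℤ) :
    Pool.Agent.Q51.EB.ELSM f m D ↔ Nonempty (AdelicPoint f m D) := by
  constructor
  · rintro ⟨⟨x, w, y, h1, h2⟩, hp⟩
    choose x' w' y' h3 h4 using fun p : Nat.Primes => hp (p : ℕ)
    exact ⟨⟨⟨x, w, y, h1, h2⟩, fun p => ⟨x' p, w' p, y' p, h3 p, h4 p⟩⟩⟩
  · rintro ⟨P⟩
    refine ⟨⟨P.re.x, P.re.w, P.re.y, P.re.ne, P.re.eq⟩, fun p hp => ?_⟩
    exact ⟨(P.pa ⟨p, hp.out⟩).x, (P.pa ⟨p, hp.out⟩).w, (P.pa ⟨p, hp.out⟩).y,
      (P.pa ⟨p, hp.out⟩).ne, (P.pa ⟨p, hp.out⟩).eq⟩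

lemma count_eq (P : ℤ → Prop) (X : ℝ) :
    (({D : ℤ | (D.natAbs : ℝ) ≤ X ∧ Squarefree D ∧ P D}.ncard : ℕ) : ℝ) = count P X := by
  unfold count
  congr 2
  ext D
  simp only [Set.mem_ofPred_eq, Nat.cast_natAbs, Int.cast_abs]
  tauto

lemma lower (hf : Irreducible (f.map (Int.castRingHom ℚ))) (hm0 : 0 < m)
    (hex : ∃ D : ℤ, Squarefree D ∧ Nonempty (AdelicPoint f m D)) :
    ∃ c X₀ : ℝ, 0 < c ∧ ∀ X : ℝ, X₀ ≤ X →
      c * X / Real.log X * Real.exp (Pool.Agent.Q51.EL.Gf f X) ≤ numSoluble f m X := by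
  obtain ⟨D0, hD0, hP⟩ := hex
  obtain ⟨c, X0, hc, h⟩ := Pool.Agent.Q51.EB.t_lowm f hf m hm0 D0 hD0 ((els_iff D0).mpr hP)
  refine ⟨c, X0, hc, fun X hX => (h X hX).trans (le_of_eq ?_)⟩
  rw [count_eq]
  unfold numSoluble
  congr 1
  ext D
  exact els_iff D

lemma count_le {P Q : ℤ → Prop} (h : ∀ D, Squarefree D → P D → Q D) (X : ℝ) :
    count P X ≤ count Q X := by
  rw [← count_eq, ← count_eq]
  refine Nat.cast_le.2 (Set.ncard_le_ncard ?_ (Pool.Agent.Q51.EL.fin_sq X _))
  rintro D ⟨h1, h2, h3⟩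
  exact ⟨h1, h2, h D h2 h3⟩

lemma exists_two (hf : Irreducible (f.map (Int.castRingHom ℚ))) :
    ∃ D : ℤ, Squarefree D ∧ Nonempty (AdelicPoint f 2 D) := by
  obtain ⟨c, X0, hc, h⟩ := Pool.Agent.Q51.EL.t_low f hf
  set X : ℝ := max X0 3 with hX
  have h3 : (3 : ℝ) ≤ X := le_max_right _ _
  have h1 := h X (le_max_left _ _)
  have hlog : 0 < Real.log X := Real.log_pos (by linarith)
  have h2 : 0 < c * X / Real.log X * Real.exp (Pool.Agent.Q51.EL.Gf f X) := by
    have : 0 < X := by linarith
    positivity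
  have h4 : 0 < ({D : ℤ | (D.natAbs : ℝ) ≤ X ∧ Squarefree D ∧
      Pool.Agent.Q51.EL.ELS f D}.ncard : ℕ) := by
    exact_mod_cast lt_of_lt_of_le h2 h1
  obtain ⟨D, -, hD, hE⟩ := Set.nonempty_of_ncard_ne_zero h4.ne'
  exact ⟨D, hD, (els_iff D).mp hE⟩

end proofs

/-- Let `f ∈ ℤ[X]` be irreducible over `ℚ`, of even degree `n ≥ 6`, and let `m > 0` be an even divisor of `n`.  For all
but `C (log X)^(-δ) E(X)` of the `E(X)` everywhere locally soluble curves `C_D : D y ^ m = F(x, w)` with squarefree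
`D`, `|D| ≤ X`, no adelic point is orthogonal to the Brauer classes `A_ε = Cor_{L/ℚ} (x - θ w, ε)`, where
`ε ∈ L = ℚ(θ)` has square norm; in particular the Brauer-Manin set is empty.  The pairing has the usual
properties.  Some `C_D` is everywhere locally soluble if `m = 2`, and whenever this is so,
`E(X) ≥ c X / log X * exp (∑ 1/l)` for large `X`, the sum over the primes `l ≤ X` modulo which `f` has a zero. -/
theorem result (f : ℤ[X]) (hf : Irreducible (f.map (Int.castRingHom ℚ))) (hev : Even f.natDegree)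
    (h6 : 6 ≤ f.natDegree) (m : ℕ) (hm0 : 0 < m) (hm : Even m) (hmn : m ∣ f.natDegree) :
    (∀ D : ℤ, Squarefree D → PairingProperties f m D) ∧
    (∃ δ C : ℝ, 0 < δ ∧ ∀ X : ℝ, 3 ≤ X →
      numOrthogonal f m X ≤ C * Real.log X ^ (-δ) * numSoluble f m X) ∧
    (m = 2 → ∃ D : ℤ, Squarefree D ∧ Nonempty (AdelicPoint f m D)) ∧
    ((∃ D : ℤ, Squarefree D ∧ Nonempty (AdelicPoint f m D)) →
      ∃ c X₀ : ℝ, 0 < c ∧ ∀ X : ℝ, X₀ ≤ X →
        c * X / Real.log X * Real.exp (sumRoots f X) ≤ numSoluble f m X) := by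
  have h2 : 2 ≤ f.natDegree := by omega
  refine ⟨fun D hD => ⟨wd hf h2 hm hD.ne_zero Pool.Agent.Q247.EB.bil.1, fun p =>
    wd hf h2 hm hD.ne_zero (Pool.Agent.Q247.EB.bil.2 (p : ℕ)), fun P ε hε =>
    fin_ram hf hev h2 hm hD P ε hε, fun Q => rational hf h2 hm hD.ne_zero Q⟩, ?_, ?_, ?_⟩
  · by_cases hex : ∃ D : ℤ, Squarefree D ∧ Nonempty (AdelicPoint f m D)
    · obtain ⟨c4, X0, hc4, hlow⟩ := lower hf hm0 hex
      obtain ⟨K, C2, C3, c, hK, hC2, hc, hS⟩ := Pool.Agent.Q51.EB.t_up f hf hev h6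
      have hle : ∀ X : ℝ, numOrthogonal f m X ≤
          (({D : ℤ | (D.natAbs : ℝ) ≤ X ∧ Squarefree D ∧
            ∃ P : Pool.Agent.Q51.EB.AVal f D, Pool.Agent.Q51.EB.Orth P}.ncard : ℕ) : ℝ) := by
        intro X
        rw [count_eq]
        refine count_le (fun D hD => ?_) X
        rintro ⟨P, hP⟩
        refine ⟨toAVal hf hm hD.ne_zero P, fun ε hε => ?_⟩
        rw [← ram_eq hf hm hD.ne_zero]
        exact hP ε hε
      obtain ⟨δ, C, hδ, -, hr⟩ := Pool.Agent.Q51.EL.ratio (numOrthogonal f m) (numSoluble f m)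
        (Pool.Agent.Q51.EL.Gf f) f.natDegree h2 K C2 C3 c c4 X0 hK hC2 hc hc4
        (fun X => Nat.cast_nonneg _) (fun X => count_le (fun D _ ⟨P, _⟩ => ⟨P⟩) X)
        (fun Y Z h => Pool.Agent.Q51.EL.Gf_mono f h) (fun X hX => (hle X).trans (hS X hX)) hlow
      exact ⟨δ, C, hδ, hr⟩
    · refine ⟨1, 0, one_pos, fun X _ => ?_⟩
      have h0 : numOrthogonal f m X = 0 := by
        unfold numOrthogonal count
        have : {D : ℤ | Squarefree D ∧ |(D : ℝ)| ≤ X ∧ ∃ P : AdelicPoint f m D, P.Orthogonal} =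
            ∅ := by
          ext D
          simp only [Set.mem_ofPred_eq, Set.mem_empty_iff_false, iff_false]
          rintro ⟨h1, -, P, -⟩
          exact hex ⟨D, h1, ⟨P⟩⟩
        rw [this, Set.ncard_empty, Nat.cast_zero]
      rw [h0]
      simp
  · rintro rfl
    exact exists_two hf
  · intro hex
    obtain ⟨c, X0, hc, h⟩ := lower hf hm0 hex
    refine ⟨c, X0, hc, fun X hX => ?_⟩
    rw [sumRoots_eq]
    exact h X hX

end Pool.Agent.Results.MP_308fa9_nt.SolubleTwists
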